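import Pool.Agent.Helper20.QD.St6

set_option autoImplicit false

open Filter Topology Matrix Set Metric
open scoped ComplexConjugate

namespace Pool.Agent.Helper24.QD

open Pool.Agent.Helper35.PM Pool.Agent.Helper20.QD

theorem hDET (hSUB : StSUB) (hDUN : StDUN) (hDNA : StDNA) (hDIM : StDIM) (hDBD : StDBD)
    (hDBJ : StDBJ) : StDET := by
  intro φ hφ
  obtain ⟨E0, hm, hz, hc, hj⟩ := hDIM φ hφ
  set E : ℂ → ℂ := fun z => if ‖z‖ < 1 then E0 z else φ z with hE
  have hED : ∀ z ∈ D, E z = E0 z := by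
    intro z hz
    have : ‖z‖ < 1 := by simpa using hz
    rw [hE]
    simp only [this, if_true]
  have hES : ∀ ζ ∈ SS, E ζ = φ ζ := by
    intro ζ hζ
    have : ‖ζ‖ = 1 := by simpa using hζ
    rw [hE]
    simp [this]
  have hcont : ContinuousOn E DD := hDBD φ E0 hφ hm hz hc.continuousOn
  have hmD : MapsTo E D D := fun z hz => by rw [hED z hz]; exact hm hz
  have hmS : MapsTo E SS SS := fun z hz => by rw [hES z hz]; exact hφ.2.2.1 hz
  have hcd : ContDiffOn ℝ 1 E D := hc.congr hED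
  have hfd : ∀ z ∈ D, fderiv ℝ E z = fderiv ℝ E0 z := by
    intro z hz
    apply Filter.EventuallyEq.fderiv_eq
    filter_upwards [isOpen_ball.mem_nhds hz] with x hx
    exact hED x hx
  have hjE : ∀ z ∈ D, ‖dzb E z‖ < ‖dz E z‖ := by
    intro z hz
    have := hj z hz
    unfold dzb dz at this ⊢
    rw [hfd z hz]
    exact this
  refine ⟨E, hcont, hES, hDBJ E hcont hmD hmS hcd hjE, hcd, hjE, ?_⟩
  intro A B hA hB hAB z hzD
  have hBz : mob B z ∈ D := (hSUB.1 B hB).2.2.1.mapsTo hzD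
  have hAw : mob A (E0 z) ∈ D := (hSUB.1 A hA).2.2.1.mapsTo (hm hzD)
  rw [hED z hzD, hED _ hBz]
  exact hDUN φ hφ (mob B z) hBz _ (hm hBz) _ hAw (hz _ hBz)
    (hDNA φ A B hφ hA hB hAB z hzD (E0 z) (hm hzD) (hz z hzD))

end Pool.Agent.Helper24.QD
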