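import Pool.Agent.Helper20.QD.St2

set_option autoImplicit false

open Filter Topology Matrix Set Metric
open scoped ComplexConjugate ComplexOrder

namespace Pool.Agent.Helper24.QD

open Pool.Agent.Helper35.PM Pool.Agent.Helper20.QD

private noncomputable def Bm (a w : ℂ) : ℂ := (w - a) / (1 - conj a * w)

private lemma nsq (a w : ℂ) : ‖1 - conj a * w‖ ^ 2 - ‖w - a‖ ^ 2 = (1 - ‖a‖ ^ 2) * (1 - ‖w‖ ^ 2) := by
  simp only [Complex.sq_norm, Complex.normSq_apply, Complex.sub_re, Complex.sub_im, Complex.mul_re,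
    Complex.mul_im, Complex.one_re, Complex.one_im, Complex.conj_re, Complex.conj_im]
  ring

private lemma dne {a w : ℂ} (ha : ‖a‖ < 1) (hw : ‖w‖ < 1) : 1 - conj a * w ≠ 0 := by
  intro h
  have h1 : conj a * w = 1 := by linear_combination -h
  have h2 : ‖conj a * w‖ = 1 := by rw [h1, norm_one]
  rw [norm_mul, RCLike.norm_conj] at h2
  have := norm_nonneg a
  have := norm_nonneg w
  nlinarith

private lemma Bm_lt {a w : ℂ} (ha : ‖a‖ < 1) (hw : ‖w‖ < 1) : ‖Bm a w‖ < 1 := by
  have h0 := dne ha hw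
  rw [Bm, norm_div, div_lt_one (norm_pos_iff.2 h0)]
  have h1 := nsq a w
  have h2 : 0 < (1 - ‖a‖ ^ 2) * (1 - ‖w‖ ^ 2) := by
    have := norm_nonneg a
    have := norm_nonneg w
    apply mul_pos <;> nlinarith
  apply lt_of_pow_lt_pow_left₀ 2 (norm_nonneg _)
  linarith

private lemma Bm_Bm {a w : ℂ} (ha : ‖a‖ < 1) (hw : ‖w‖ < 1) : Bm (-a) (Bm a w) = w := by
  have h0 := dne ha hw
  have h1 : 1 - conj a * a ≠ 0 := dne ha ha
  have hB : Bm a w * (1 - conj a * w) = w - a := div_mul_cancel₀ _ h0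
  have e : 1 - conj (-a) * Bm a w = (1 - conj a * a) / (1 - conj a * w) := by
    rw [eq_div_iff h0, map_neg]
    linear_combination conj a * hB
  have e2 : Bm a w - -a = w * (1 - conj a * a) / (1 - conj a * w) := by
    rw [eq_div_iff h0]
    linear_combination hB
  rw [Bm, e, e2, div_div_div_cancel_right₀ h0, mul_div_assoc, div_self h1, mul_one]

private lemma Bm_diff {a : ℂ} (ha : ‖a‖ < 1) {f : ℂ → ℂ} (hf : DifferentiableOn ℂ f D)
    (hm : MapsTo f D D) : DifferentiableOn ℂ (fun z => Bm a (f z)) D := by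
  intro z hz
  have h0 : 1 - conj a * f z ≠ 0 := dne ha (by simpa using hm hz)
  exact ((hf z hz).sub_const a).div (((hf z hz).const_mul _).const_sub 1) h0

private lemma autD {h : ℂ → ℂ} (hd : DifferentiableOn ℂ h D) (hi : InjOn h D) (hs : h '' D = D)
    (hne : ∀ z ∈ D, deriv h z ≠ 0) :
    ∃ a c : ℂ, ‖a‖ < 1 ∧ ‖c‖ = 1 ∧ ∀ z ∈ D, h z = (c * z + a) / (1 + conj a * (c * z)) := by
  have hm : MapsTo h D D := fun z hz => by rw [← hs]; exact mem_image_of_mem h hz
  have z0 : (0 : ℂ) ∈ D := by simp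
  set a := h 0 with hadef
  have ha : ‖a‖ < 1 := by simpa using hm z0
  have ha' : ‖-a‖ < 1 := by rwa [norm_neg]
  set g := Function.invFunOn h D with hg
  have gl : ∀ z ∈ D, g (h z) = z := fun z hz => hi.leftInvOn_invFunOn hz
  have gm : MapsTo g D D := by
    intro w hw
    rw [← hs] at hw
    obtain ⟨z, hz, rfl⟩ := hw
    rw [gl z hz]
    exact hz
  have gd : DifferentiableOn ℂ g D := by
    intro w hw
    have hw' := hw
    rw [← hs] at hw'
    obtain ⟨z, hz, rfl⟩ := hw'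
    have h1 : AnalyticAt ℂ h z := hd.analyticAt (isOpen_ball.mem_nhds hz)
    have h2 : HasStrictDerivAt h (deriv h z) z := h1.hasStrictDerivAt
    have h3 : ∀ᶠ x in 𝓝 z, g (h x) = x := by
      filter_upwards [isOpen_ball.mem_nhds hz] with x hx
      exact gl x hx
    exact (h2.to_local_left_inverse (hne z hz) h3).hasDerivAt.differentiableAt.differentiableWithinAt
  have Fd : DifferentiableOn ℂ (fun z => Bm a (h z)) D := Bm_diff ha hd hm
  have Fm : MapsTo (fun z => Bm a (h z)) D D := fun z hz => by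
    have : ‖Bm a (h z)‖ < 1 := Bm_lt ha (by simpa using hm hz)
    simpa using this
  have F0 : (fun z => Bm a (h z)) 0 = 0 := by
    simp [Bm, ← hadef]
  have idm : MapsTo (fun w : ℂ => Bm (-a) w) D D := fun z hz => by
    have : ‖Bm (-a) z‖ < 1 := Bm_lt ha' (by simpa using hz)
    simpa using this
  have Gd : DifferentiableOn ℂ (fun w => g (Bm (-a) w)) D :=
    gd.comp (Bm_diff ha' differentiableOn_id (fun z hz => hz)) idm
  have Gm : MapsTo (fun w => g (Bm (-a) w)) D D := fun z hz => gm (idm hz)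
  have G0 : (fun w => g (Bm (-a) w)) 0 = 0 := by
    have e : Bm (-a) 0 = h 0 := by simp [Bm, ← hadef]
    change g (Bm (-a) 0) = 0
    rw [e]
    exact gl 0 z0
  have hF : ∀ z ∈ D, ‖Bm a (h z)‖ = ‖z‖ := by
    intro z hz
    have hz1 : ‖z‖ < 1 := by simpa using hz
    have i1 : ‖Bm a (h z)‖ ≤ ‖z‖ :=
      Complex.norm_le_norm_of_mapsTo_ball Fd (Fm.mono_right ball_subset_closedBall) F0 hz1
    have i2 : ‖g (Bm (-a) (Bm a (h z)))‖ ≤ ‖Bm a (h z)‖ :=
      Complex.norm_le_norm_of_mapsTo_ball Gd (Gm.mono_right ball_subset_closedBall) G0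
        (by simpa using Fm hz)
    rw [Bm_Bm ha (by simpa using hm hz), gl z hz] at i2
    exact le_antisymm i1 i2
  have half : (1 / 2 : ℂ) ∈ D := by
    have : ‖(1 / 2 : ℂ)‖ < 1 := by norm_num
    simpa using this
  obtain ⟨c, hc1, hc2⟩ := Complex.affine_of_mapsTo_ball_of_exists_norm_dslope_eq_div' (R₂ := 1) Fd
    (by
      have F0' : Bm a (h 0) = 0 := F0
      change MapsTo _ (ball 0 1) (closedBall (Bm a (h 0)) 1)
      rw [F0']
      exact Fm.mono_right ball_subset_closedBall) ⟨1 / 2, half, by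
      rw [dslope_of_ne _ (by norm_num), slope_def_module, norm_smul]
      have e : (fun z => Bm a (h z)) (1 / 2) - (fun z => Bm a (h z)) 0 = Bm a (h (1 / 2)) := by
        rw [F0, sub_zero]
      rw [e, hF _ half]
      norm_num⟩
  refine ⟨a, c, ha, by simpa using hc1, fun z hz => ?_⟩
  have e1 : Bm a (h z) = c * z := by
    have := hc2 hz
    change Bm a (h z) = (fun z => Bm a (h z)) 0 + (z - 0) • c at this
    rw [F0, zero_add, sub_zero, smul_eq_mul, mul_comm] at this
    exact this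
  have e2 := Bm_Bm ha (w := h z) (by simpa using hm hz)
  rw [e1] at e2
  rw [← e2, Bm, map_neg]
  congr 1 <;> ring

private noncomputable def AA (k : ℝ) (a s : ℂ) : Mat :=
  !![k * s, k * (a * conj s); k * (conj a * s), k * conj s]

private lemma detAA {k : ℝ} {a s : ℂ} (hk : k ^ 2 * (1 - ‖a‖ ^ 2) = 1) (hs : ‖s‖ = 1) :
    (AA k a s).det = 1 := by
  have h1 : s * conj s = 1 := by
    rw [Complex.mul_conj, Complex.normSq_eq_norm_sq, hs]
    norm_num
  have h2 : a * conj a = ((‖a‖ ^ 2 : ℝ) : ℂ) := by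
    rw [Complex.mul_conj, Complex.normSq_eq_norm_sq]
  have h3 : ((k : ℂ)) ^ 2 * (1 - ((‖a‖ ^ 2 : ℝ) : ℂ)) = 1 := by
    exact_mod_cast hk
  rw [AA, det_fin_two_of]
  linear_combination h3 + (k : ℂ) ^ 2 * (1 - a * conj a) * h1 - (k : ℂ) ^ 2 * h2

private lemma propAA {k : ℝ} {a s : ℂ} (hk : k ^ 2 * (1 - ‖a‖ ^ 2) = 1) (hs : ‖s‖ = 1)
    {A : SL} (hA : (A : Mat) = AA k a s) :
    IsSU A ∧ (∀ z, den A z = k * (conj a * s * z + conj s)) ∧
      ∀ z : ℂ, mob A z = (s ^ 2 * z + a) / (1 + conj a * (s ^ 2 * z)) := by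
  have k0 : (k : ℂ) ≠ 0 := by
    intro h
    have : k = 0 := by exact_mod_cast h
    rw [this] at hk
    norm_num at hk
  have h1 : s * conj s = 1 := by
    rw [Complex.mul_conj, Complex.normSq_eq_norm_sq, hs]
    norm_num
  have s0 : s ≠ 0 := by
    intro h
    rw [h, zero_mul] at h1
    exact zero_ne_one h1
  refine ⟨⟨?_, ?_⟩, ?_, ?_⟩
  · rw [hA]
    simp [AA]
  · rw [hA]
    simp [AA]
  · intro z
    rw [den, hA]
    simp [AA]
    ring
  · intro z
    rw [mob, hA]
    simp only [AA, of_apply, cons_val', cons_val_zero, cons_val_one, cons_val_fin_one]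
    have e1 : (k : ℂ) * s * z + k * (a * conj s) = (k * conj s) * (s ^ 2 * z + a) := by
      linear_combination -(k : ℂ) * s * z * h1
    have e2 : (k : ℂ) * (conj a * s) * z + k * conj s = (k * conj s) * (1 + conj a * (s ^ 2 * z)) := by
      linear_combination -(k : ℂ) * conj a * s * z * h1
    have c0 : (k : ℂ) * conj s ≠ 0 := mul_ne_zero k0 (by simpa using s0)
    rw [e1, e2, mul_div_mul_left _ _ c0]

theorem hRAU : StRAU := by
  intro h j hd hi hs hj hjd
  have hne : ∀ z ∈ D, deriv h z ≠ 0 := by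
    intro z hz h0
    have := hjd z hz
    rw [h0, mul_zero] at this
    exact zero_ne_one this
  obtain ⟨a, c, ha, hc, hh⟩ := autD hd hi hs hne
  obtain ⟨s, hs2⟩ := IsAlgClosed.exists_pow_nat_eq c (n := 2) (by norm_num)
  have hs1 : ‖s‖ = 1 := by
    have h1 : ‖s‖ ^ 2 = 1 := by rw [← norm_pow, hs2, hc]
    have := norm_nonneg s
    nlinarith
  have hpos : 0 < 1 - ‖a‖ ^ 2 := by
    have := norm_nonneg a
    nlinarith
  set k : ℝ := (Real.sqrt (1 - ‖a‖ ^ 2))⁻¹ with hkdef
  have hk : k ^ 2 * (1 - ‖a‖ ^ 2) = 1 := by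
    rw [hkdef, inv_pow, Real.sq_sqrt hpos.le]
    field_simp
  have hk' : (-k) ^ 2 * (1 - ‖a‖ ^ 2) = 1 := by rw [neg_sq]; exact hk
  let A : SL := ⟨AA k a s, detAA hk hs1⟩
  let A' : SL := ⟨AA (-k) a s, detAA hk' hs1⟩
  obtain ⟨a1, a2, a3⟩ := propAA hk hs1 (A := A) rfl
  obtain ⟨b1, b2, b3⟩ := propAA hk' hs1 (A := A') rfl
  have hmob : ∀ z ∈ D, mob A z = h z := by
    intro z hz
    rw [a3, hh z hz, hs2]
  have hmob' : ∀ z ∈ D, mob A' z = h z := by
    intro z hz
    rw [b3, hh z hz, hs2]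
  have hden : ∀ z ∈ D, den A z ≠ 0 := by
    intro z hz h0
    have hz1 : ‖z‖ < 1 := by simpa using hz
    have h1 : (k : ℂ) ≠ 0 := by
      intro h
      have : k = 0 := by exact_mod_cast h
      rw [this] at hk
      norm_num at hk
    rw [a2] at h0
    rcases mul_eq_zero.1 h0 with h2 | h2
    · exact h1 h2
    · have h3 : ‖conj a * s * z‖ = 1 := by
        have : conj a * s * z = -conj s := by linear_combination h2
        rw [this, norm_neg, RCLike.norm_conj, hs1]
      rw [norm_mul, norm_mul, RCLike.norm_conj, hs1, mul_one] at h3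
      have := norm_nonneg a
      have := norm_nonneg z
      nlinarith
  have hder : ∀ z ∈ D, deriv h z * den A z ^ 2 = 1 := by
    intro z hz
    have h0 := hden z hz
    have e : h =ᶠ[𝓝 z] mob A := by
      filter_upwards [isOpen_ball.mem_nhds hz] with x hx
      exact (hmob x hx).symm
    have d1 : HasDerivAt (fun z : ℂ => (A : Mat) 0 0 * z + (A : Mat) 0 1) ((A : Mat) 0 0) z := by
      simpa using ((hasDerivAt_id z).const_mul ((A : Mat) 0 0)).add_const ((A : Mat) 0 1)
    have d2 : HasDerivAt (fun z : ℂ => (A : Mat) 1 0 * z + (A : Mat) 1 1) ((A : Mat) 1 0) z := by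
      simpa using ((hasDerivAt_id z).const_mul ((A : Mat) 1 0)).add_const ((A : Mat) 1 1)
    have d3 := d1.div d2 h0
    have d4 : deriv (mob A) z = ((A : Mat) 0 0 * ((A : Mat) 1 0 * z + (A : Mat) 1 1) -
        ((A : Mat) 0 0 * z + (A : Mat) 0 1) * (A : Mat) 1 0) / ((A : Mat) 1 0 * z + (A : Mat) 1 1) ^ 2 :=
      d3.deriv
    rw [e.deriv_eq, d4]
    change _ / (den A z) ^ 2 * den A z ^ 2 = 1
    rw [div_mul_cancel₀ _ (pow_ne_zero 2 h0)]
    have hdet : (A : Mat) 0 0 * (A : Mat) 1 1 - (A : Mat) 0 1 * (A : Mat) 1 0 = 1 := by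
      rw [← det_fin_two]
      exact A.2
    linear_combination hdet
  have hcont : ContinuousOn (den A) D := by
    unfold den
    fun_prop
  have hsq : EqOn (j ^ 2) (den A ^ 2) D := by
    intro z hz
    have h1 := hjd z hz
    have h2 := hder z hz
    have h3 := hne z hz
    change j z ^ 2 = den A z ^ 2
    apply mul_right_cancel₀ h3
    rw [h1, mul_comm, h2]
  have hpre : IsPreconnected D := (convex_ball (0 : ℂ) 1).isPreconnected
  rcases hpre.eq_or_eq_neg_of_sq_eq hj hcont hsq (fun {x} hx => hden x hx) with h1 | h1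
  · exact ⟨A, a1, fun z hz => ⟨hmob z hz, (h1 hz).symm⟩⟩
  · refine ⟨A', b1, fun z hz => ⟨hmob' z hz, ?_⟩⟩
    have h2 := h1 hz
    rw [h2, b2]
    change _ = -(den A z)
    rw [a2]
    push_cast
    ring

end Pool.Agent.Helper24.QD
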