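import Pool.Agent.Helper20.QD.St5

/-!
Project QD part B (MP_d112a4_gt), module WAR: finite area.
-/

set_option autoImplicit false

open Filter Topology Matrix Set Metric MeasureTheory
open scoped ComplexConjugate ComplexOrder

namespace Pool.Agent.Helper24.QD

open Pool.Agent.Helper35.PM Pool.Agent.Helper20.QD

private theorem war_det (L : ℂ →L[ℝ] ℂ) :
    L.det = ‖(L 1 - Complex.I * L Complex.I) / 2‖ ^ 2
      - ‖(L 1 + Complex.I * L Complex.I) / 2‖ ^ 2 := by
  have h1 : L.det = (LinearMap.toMatrix Complex.basisOneI Complex.basisOneI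
      (L : ℂ →ₗ[ℝ] ℂ)).det := by
    rw [LinearMap.det_toMatrix]
  rw [h1, Matrix.det_fin_two]
  simp only [LinearMap.toMatrix_apply, Complex.coe_basisOneI_repr, Complex.coe_basisOneI]
  rw [← Complex.normSq_eq_norm_sq, ← Complex.normSq_eq_norm_sq, Complex.normSq_apply,
    Complex.normSq_apply]
  simp
  ring

/-- WAR. finite area -/
theorem hWAR : StWAR := by
  intro W k hk0 hk1 hW hinj hb hdil
  have hDo : IsOpen D := isOpen_ball
  have hDm : MeasurableSet D := hDo.measurableSet
  have hder : ∀ x ∈ D, HasFDerivWithinAt W (fderiv ℝ W x) D x := fun x hx =>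
    ((hW.differentiableOn (by norm_num)).differentiableAt
      (hDo.mem_nhds hx)).hasFDerivAt.hasFDerivWithinAt
  have harea := lintegral_abs_det_fderiv_eq_addHaar_image volume hDm hder hinj
  have hfin : volume (W '' D) < ⊤ := hb.measure_lt_top
  have hcf : ContinuousOn (fun z => fderiv ℝ W z) D := hW.continuousOn_fderiv_of_isOpen hDo le_rfl
  have hcz : ContinuousOn (fun z => ‖dz W z‖ ^ 2) D := by
    unfold dz
    have h1 : ContinuousOn (fun z => fderiv ℝ W z 1) D := hcf.clm_apply continuousOn_const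
    have h2 : ContinuousOn (fun z => fderiv ℝ W z Complex.I) D := hcf.clm_apply continuousOn_const
    exact (((h1.sub (continuousOn_const.mul h2)).div_const 2).norm.pow 2)
  have hk : 0 < 1 - k ^ 2 := by nlinarith
  have hle : ∀ z ∈ D, (1 - k ^ 2) * ‖dz W z‖ ^ 2 ≤ |(fderiv ℝ W z).det| := by
    intro z hz
    refine le_trans ?_ (le_abs_self _)
    rw [war_det]
    have h1 := hdil z hz
    have h2 : ‖dzb W z‖ ^ 2 ≤ (k * ‖dz W z‖) ^ 2 := pow_le_pow_left₀ (norm_nonneg _) h1 2
    have h3 : (1 - k ^ 2) * ‖dz W z‖ ^ 2 ≤ ‖dz W z‖ ^ 2 - ‖dzb W z‖ ^ 2 := by nlinarith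
    exact h3
  have hlin : ∫⁻ z in D, ENNReal.ofReal ((1 - k ^ 2) * ‖dz W z‖ ^ 2) ≤ volume (W '' D) := by
    rw [← harea]
    exact setLIntegral_mono' hDm (fun z hz => ENNReal.ofReal_le_ofReal (hle z hz))
  have hmeas : AEStronglyMeasurable (fun z => (1 - k ^ 2) * ‖dz W z‖ ^ 2)
      (volume.restrict D) := (continuousOn_const.mul hcz).aestronglyMeasurable hDm
  have hnn : 0 ≤ᵐ[volume.restrict D] fun z => (1 - k ^ 2) * ‖dz W z‖ ^ 2 :=
    Eventually.of_forall (fun z => by positivity)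
  have hint : IntegrableOn (fun z => (1 - k ^ 2) * ‖dz W z‖ ^ 2) D := by
    refine ⟨hmeas, ?_⟩
    rw [hasFiniteIntegral_iff_ofReal hnn]
    exact hlin.trans_lt hfin
  constructor
  · have h1 : IntegrableOn (fun z => (1 - k ^ 2)⁻¹ * ((1 - k ^ 2) * ‖dz W z‖ ^ 2)) D :=
      Integrable.const_mul hint _
    refine h1.congr (Eventually.of_forall fun z => ?_)
    simp only
    rw [← mul_assoc, inv_mul_cancel₀ hk.ne', one_mul]
  · rw [← integral_const_mul, integral_eq_lintegral_of_nonneg_ae hnn hmeas]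
    exact ENNReal.toReal_mono hfin.ne hlin

end Pool.Agent.Helper24.QD
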